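import Pool.Agent.N936.TC.Stm

set_option autoImplicit false

/-! Leaf CUTS of project TC (helper936, MP_cdfe0d_gt): cut sets for the digit flip maps.
Proved by helper227. -/

namespace Pool.Agent.N227.TC
open Set Pool.Agent.N936.TC

lemma cyl (C : Set Q) (hC : IsOpen C) (w : Q) (hw : w ∈ C) :
    ∃ m : ℕ, ∀ x : Q, (∀ k < m, x k = w k) → x ∈ C := by
  rw [isOpen_pi_iff] at hC
  obtain ⟨J, u, hu, hs⟩ := hC w hw
  refine ⟨J.sup id + 1, fun x hx => hs ?_⟩
  intro a ha
  have h1 : a ≤ J.sup id := Finset.le_sup (f := id) ha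
  rw [hx a (by omega)]
  exact (hu a ha).2

theorem t_CUTS : Pool.Agent.N936.TC.S_CUTS := by
  intro typ wd hR σ hσ i C₁ C₂ h1 hn1 h2 hn2
  obtain ⟨w1, hw1⟩ := hn1
  obtain ⟨w2, hw2⟩ := hn2
  obtain ⟨m1, hm1⟩ := cyl C₁ h1 w1 hw1
  obtain ⟨m2, hm2⟩ := cyl C₂ h2 w2 hw2
  obtain ⟨n, hn, ht, hwd⟩ := hR i w1 m1 (m1 + m2 + 1)
  have key : ∀ b : Bool, ∃ y ∈ C₂, y n = b ∧ ∀ j, σ j y n = b := by
    intro b
    refine ⟨fun k => if k < n - 1 then w2 k else if k = n - 1 then !(wd n (n - 1)) else b, ?_, ?_, ?_⟩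
    · apply hm2
      intro k hk
      rw [if_pos (by omega)]
    · simp only
      rw [if_neg (by omega), if_neg (by omega)]
    · intro j
      rw [hσ]
      unfold sgf
      rw [if_neg]
      · simp only
        rw [if_neg (by omega), if_neg (by omega)]
      · rintro ⟨_, h⟩
        have h3 := h (n - 1) (by omega)
        simp only [lt_irrefl, if_false, if_true] at h3
        cases hb : wd n (n - 1) <;> rw [hb] at h3 <;> simp at h3
  refine ⟨{x | x n = true}, ?_, ?_, ?_, ?_⟩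
  · exact (isClopen_discrete {true}).preimage (continuous_apply n)
  · intro j q
    by_cases hc : typ n = j ∧ ∀ k < n, q k = wd n k
    · right
      refine ⟨hc.1.symm.trans ht, hm1 q fun k hk => ?_⟩
      rw [hc.2 k (by omega), hwd k hk]
    · left
      simp only [Set.mem_ofPred_eq]
      rw [hσ]
      unfold sgf
      rw [if_neg hc]
  · obtain ⟨y, hy, hyn, hyj⟩ := key true
    exact ⟨y, hy, hyn, hyj⟩
  · obtain ⟨y, hy, hyn, hyj⟩ := key false
    refine ⟨y, hy, ?_, ?_⟩
    · simp [hyn]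
    · intro j
      simp [hyj j]

end Pool.Agent.N227.TC
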